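import Pool.Agent.MWLE.StmtsB

/-!
# Row ALE of the table mwle
-/

namespace Pool.Agent.MWLE.H1

open Pool.Agent.Helper14_MV Pool.Agent.Helper2_MV

theorem ale (h1 : PenStmt) (h2 : BtsStmt) : AleStmt := by
  intro β hM hG hE hF m
  induction m using Nat.strong_induction_on with
  | _ m ih =>
    intro τ hτ
    exact h1 β hM hG hE hF m τ hτ (h2 β hG m (fun k hk σ hσ => ih k hk σ hσ))

end Pool.Agent.MWLE.H1
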