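import Pool.Agent.MWLE.StmtsB

/-!
# Row CVB of the table mwle (covering by the second copy)
-/

namespace Pool.Agent.MWLE.H1

open Pool.Agent.Helper14_MV Pool.Agent.Helper2_MV
open Pool.Agent.MWK (pre Gw)
open Pool.Agent.MWF (Ap gaml dbl)
open Pool.Agent.MWGN (nn Gz E0 P0 A0 Tau gh)

theorem cvb_con_mem {m i : ℕ} (h1 : 1 ≤ i) (h2 : i ≤ m) : con (m + 1 + i) ∈ cp (m + 2) m := by
  unfold cp
  rw [List.mem_flatMap]
  refine ⟨i - 1, List.mem_range.2 (by omega), ?_⟩
  have e : m + 1 + i = m + 2 + (i - 1) := by omega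
  rw [e]
  simp

theorem cvb (h1 : TcrStmt) (h2 : GfbStmt) : CvbStmt := by
  intro σ τ m hσ d g f p q W hW hF hc1 hc a ha hP hN
  obtain ⟨G, hG⟩ : ∃ G : ℕ → List ℕ, G = fun i => f (pin (m + 1 + i)) := ⟨_, rfl⟩
  obtain ⟨H, hH⟩ : ∃ H : ℕ → List ℕ, H = fun i => if i = 0 then f 1 else if i ≤ m then
      f (con (m + 1 + i)) ++ f (con (m + 1 + i)) else [] := ⟨_, rfl⟩
  have hg := h2 m g f
  rw [← hG, ← hH] at hg
  -- letters of `wb`
  have w0 : (0 : ℕ) ∈ wb m d g := by unfold wb; simp
  have wNx : ∀ c ∈ Nx m g, c ∈ wb m d g := by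
    intro c hc
    unfold wb
    simp only [List.mem_append]
    exact Or.inr (Or.inr (Or.inl hc))
  have w1 : (1 : ℕ) ∈ wb m d g := wNx _ (by unfold Nx; simp)
  have wc : con (m + 1) ∈ wb m d g := wNx _ (by unfold Nx; simp)
  have wci : ∀ i, 1 ≤ i → i ≤ m → con (m + 1 + i) ∈ wb m d g := by
    intro i hi hi'
    apply wNx
    unfold Nx
    have := cvb_con_mem hi hi'
    simp only [List.mem_cons, List.mem_append]
    tauto
  have n0 : ∀ k ≤ 2 * m + 2, pin k ∉ f 0 := hc 0 w0 (by intro j; unfold pin; omega)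
  have n1 : ∀ k ≤ 2 * m + 2, pin k ∉ f 1 := hc 1 w1 (by intro j; unfold pin; omega)
  have nc : ∀ k ≤ 2 * m + 2, pin k ∉ f (con (m + 1)) :=
    hc _ wc (by intro j; unfold pin con; omega)
  have nci : ∀ i, 1 ≤ i → i ≤ m → ∀ k ≤ 2 * m + 2, pin k ∉ f (con (m + 1 + i)) := by
    intro i hi hi'
    exact hc _ (wci i hi hi') (by intro j; unfold pin con; omega)
  obtain ⟨B, hB⟩ : ∃ B, B = (f (con (m + 1)) ++ f (con (m + 1))) ++ (if g then f 1 else []) :=
    ⟨_, rfl⟩
  obtain ⟨D, hD⟩ : ∃ D : List ℕ, D = (if d then [0, 0] else [0]) := ⟨_, rfl⟩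
  have hg' : (Nx m g).flatMap f = B ++ gh G H (m + 2) := by
    rw [hg, hB, List.append_assoc (f (con (m + 1)) ++ f (con (m + 1)))]
  have nB : ∀ k ≤ 2 * m + 2, pin k ∉ B := by
    intro k hk hm
    rw [hB] at hm
    rcases List.mem_append.1 hm with h | h
    · rcases List.mem_append.1 h with h | h
      · exact nc k hk h
      · exact nc k hk h
    · split_ifs at h with h'
      · exact n1 k hk h
      · exact List.not_mem_nil h
  have nD : ∀ k ≤ 2 * m + 2, pin k ∉ D.flatMap f := by
    intro k hk hm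
    obtain ⟨c, hc', hm⟩ := List.mem_flatMap.1 hm
    rw [hD] at hc'
    have : c = 0 := by
      split_ifs at hc' with h'
      · simpa using hc'
      · simpa using hc'
    rw [this] at hm
    exact n0 k hk hm
  obtain ⟨P, hPd⟩ : ∃ P, P = (p ++ (N0 m).flatMap f) ++ (D.flatMap f ++ B) := ⟨_, rfl⟩
  have hwb : p ++ (wb m d g).flatMap f = P ++ (gh G H (m + 2) ++ f 0) := by
    unfold wb
    rw [← hD, List.flatMap_append, List.flatMap_append, List.flatMap_append, hg', hPd]
    simp [List.append_assoc]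
  have hWP : W = P ++ (gh G H (m + 2) ++ (f 0 ++ ((tl σ).flatMap f ++ q))) := by
    rw [hW]
    unfold wd
    rw [List.flatMap_append]
    have : p ++ ((wb m d g).flatMap f ++ (tl σ).flatMap f ++ q) =
        (p ++ (wb m d g).flatMap f) ++ ((tl σ).flatMap f ++ q) := by
      simp [List.append_assoc]
    rw [this, hwb]
    simp [List.append_assoc]
  have nP : ∀ i < m + 2, pin (a + i) ∉ P := by
    intro i hi hm
    rw [hPd] at hm
    rcases List.mem_append.1 hm with h | h
    · exact hP i hi h
    · rcases List.mem_append.1 h with h | h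
      · exact nD _ (by omega) h
      · exact nB _ (by omega) h
  have inG : ∀ i < m + 2, pin (a + i) ∈ gh G H (m + 2) := by
    intro i hi
    have h3 := hN i hi
    rw [hg'] at h3
    rcases List.mem_append.1 h3 with h | h
    · exact absurd h (nB _ (by omega))
    · exact h
  have main := MWGN.cov (g := G) (h := H) (L := fun i => pin (a + i)) (N := m + 2) ?_ ?_ ?_ ?_
  · intro i hi
    have h3 := main i hi
    rw [hG] at h3
    exact h3
  · intro i hi
    have h3 := hc1 (a + i) (by omega)
    rw [hwb, List.count_append, List.count_append] at h3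
    have h4 : 0 < (gh G H (m + 2)).count (pin (a + i)) := List.count_pos_iff.2 (inG i hi)
    show (gh G H (m + 2)).count (pin (a + i)) = 1
    omega
  · intro i j hij hj
    have h3 := hF.po (a + i) (a + j) (by omega) (by omega)
    rw [hWP, MWK.pre_append (nP j hj), MWK.pre_append_mem (inG j hj)] at h3
    rcases List.mem_append.1 h3 with h | h
    · exact absurd h (nP i (by omega))
    · exact h
  · intro i hi j hj hm
    rw [hH] at hm
    simp only at hm
    split_ifs at hm with h3 h4
    · exact n1 _ (by omega) hm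
    · rcases List.mem_append.1 hm with h | h
      · exact nci i (by omega) h4 _ (by omega) h
      · exact nci i (by omega) h4 _ (by omega) h
    · exact List.not_mem_nil hm
  · intro i hi j j' hjj hj' hm
    rw [hG] at hm
    obtain ⟨hm1, hm2⟩ := hm
    have hsj : a + j ∈ σ := (hσ.me _).2 (by omega)
    rcases MWK.pre_total (y := a + j') hsj (by omega) with h | h
    · exact h1 σ τ m hσ d g f p q W hW hF (m + 1 + i) (m + 1 + i) (a + j) (a + j')
        (by omega) (by omega) (by omega) (by omega) (Or.inl rfl) h hm2 hm1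
    · exact h1 σ τ m hσ d g f p q W hW hF (m + 1 + i) (m + 1 + i) (a + j') (a + j)
        (by omega) (by omega) (by omega) (by omega) (Or.inl rfl) h hm1 hm2

end Pool.Agent.MWLE.H1
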